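import Pool.Agent.Lib.MP_44a765_co.Defs

/-!
# MP_44a765_co: the rainbow saturation number of cliques, order of the second term

`sat n r` is the rainbow saturation number of `K_r` with unlimited colours.  We show
`sat n r ≤ (r + 3 r^(1/3)) n` for all `r ≥ 3` and all `n`.  The coefficient `α_r` of `n` in
`sat n r = α_r n + O(1)` was known to satisfy `r + Ω(r^(1/3)) ≤ α_r ≤ r + r^(1/2)`, so the order
of `α_r - r` is exactly `r^(1/3)`.

Construction.  Let `P, Q, R` be independent sets of size `m` and `Y` a set of triples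
`(p, q, r)` with `(0, q, r) ∈ Y` for all `q, r`; all other pairs are edges.  All edges have their own
colours, except that the edge from `y = π p q r ∈ Y` to `p` has the colour of the edge `q r`, where
`π p q r = (p, q, r)` if this is in `Y` and `(0, q, r)` otherwise.  The largest rainbow cliques have
`|Y| + 2` vertices, and every vertex and every colour is avoided by one of them.  All other
vertices of the saturated graph are independent and joined to this set of `3 m + |Y|` vertices,
`|Y| = r - 4`, `m` about `r^(1/3)`.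
-/

set_option autoImplicit false

namespace Pool.Agent.Results.MP_44a765_co.CubeRootExcess

open Finset Pool.Agent.Lib.MP44a765

/-! ### Extension to a saturated graph -/

theorem adj_sup_edge {V : Type} {G : SimpleGraph V} {u v a b : V}
    (h : (G ⊔ SimpleGraph.edge u v).Adj a b) : G.Adj a b ∨ s(a, b) = s(u, v) := by
  rw [SimpleGraph.sup_adj] at h
  rcases h with h | h
  · exact Or.inl h
  · rw [SimpleGraph.edge_adj] at h
    right
    rw [Sym2.eq_iff]
    exact h.1

/-- the property of a partial construction which survives extension -/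
theorem extend {V : Type} [Finite V] (r : ℕ) (G0 : SimpleGraph V) :
    ∀ c0 : Sym2 V → ℕ, ¬ HasRainbow G0 c0 r →
    ∃ (G : SimpleGraph V) (c : Sym2 V → ℕ), G0 ≤ G ∧ (∀ e ∈ G0.edgeSet, c e = c0 e) ∧
      Saturated r G c := by
  refine WellFoundedGT.induction (motive := fun G0 : SimpleGraph V => ∀ c0 : Sym2 V → ℕ,
    ¬ HasRainbow G0 c0 r → ∃ (G : SimpleGraph V) (c : Sym2 V → ℕ), G0 ≤ G ∧
      (∀ e ∈ G0.edgeSet, c e = c0 e) ∧ Saturated r G c) G0 ?_
  intro G0 ih c0 h0
  by_cases hs : Saturated r G0 c0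
  · exact ⟨G0, c0, le_rfl, fun e _ => rfl, hs⟩
  · unfold Saturated at hs
    push Not at hs
    obtain ⟨u, v, huv, hadj, c', hc', hno⟩ := hs h0
    have hlt : G0 < G0 ⊔ SimpleGraph.edge u v := by
      refine lt_of_le_of_ne le_sup_left ?_
      intro h
      apply hadj
      rw [h, SimpleGraph.sup_adj]
      right
      rw [SimpleGraph.edge_adj]
      exact ⟨Or.inl ⟨rfl, rfl⟩, huv⟩
    obtain ⟨G, c, h1, h2, h3⟩ := ih _ hlt c' hno
    refine ⟨G, c, hlt.le.trans h1, ?_, h3⟩
    intro e he
    have he' : e ≠ s(u, v) := by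
      rintro rfl
      exact hadj he
    rw [h2 e (SimpleGraph.edgeSet_mono hlt.le he), hc' e he']

/-- a non-edge which is already saturated stays a non-edge -/
theorem stays {V : Type} {r : ℕ} {G0 G : SimpleGraph V} {c0 c : Sym2 V → ℕ} (hG : G0 ≤ G)
    (hc : ∀ e ∈ G0.edgeSet, c e = c0 e) (hno : ¬ HasRainbow G c r) {u v : V}
    (h : ∀ c' : Sym2 V → ℕ, (∀ e, e ≠ s(u, v) → c' e = c0 e) →
      HasRainbow (G0 ⊔ SimpleGraph.edge u v) c' r) : ¬ G.Adj u v := by
  classical
  intro hadj
  obtain ⟨K, hK, h1, h2⟩ := h (fun e => if e = s(u, v) then c s(u, v) else c0 e)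
    (fun e he => if_neg he)
  have key : ∀ a ∈ K, ∀ b ∈ K, a ≠ b → G.Adj a b ∧
      (if s(a, b) = s(u, v) then c s(u, v) else c0 s(a, b)) = c s(a, b) := by
    intro a ha b hb hab
    rcases adj_sup_edge (h1 a ha b hb hab) with h3 | h3
    · refine ⟨hG h3, ?_⟩
      by_cases h4 : s(a, b) = s(u, v)
      · rw [if_pos h4, h4]
      · rw [if_neg h4, hc _ h3]
    · refine ⟨?_, by rw [if_pos h3, h3]⟩
      rw [← SimpleGraph.mem_edgeSet, h3]
      exact hadj
  refine hno ⟨K, hK, fun a ha b hb hab => (key a ha b hb hab).1, ?_⟩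
  intro a ha b hb a' ha' b' hb' hab hab' heq
  refine h2 a ha b hb a' ha' b' hb' hab hab' ?_
  show (if s(a, b) = s(u, v) then c s(u, v) else c0 s(a, b)) =
    (if s(a', b') = s(u, v) then c s(u, v) else c0 s(a', b'))
  rw [(key a ha b hb hab).2, (key a' ha' b' hb' hab').2, heq]

/-! ### Gadgets -/

/-- A gadget: an edge coloured graph (colours are pairs of vertices) without a rainbow clique of
size `s + 1`; for every vertex `x` there is a rainbow clique of size `s` without `x` and without a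
colour which contains `x`. -/
structure Gadget (X : Type) (s : ℕ) where
  /-- the graph -/
  G : SimpleGraph X
  /-- the colouring -/
  col : Sym2 X → Sym2 X
  no : ∀ K : Finset X, RainbowClique G col K → K.card ≤ s
  av : ∀ x : X, ∃ K : Finset X, K.card = s ∧ RainbowClique G col K ∧ x ∉ K ∧
    ∀ a ∈ K, ∀ b ∈ K, a ≠ b → x ∉ col s(a, b)

section assemble

variable {X : Type} {s : ℕ} (g : Gadget X s) (O : Type)

/-- the gadget joined completely to an independent set -/
def bigG : SimpleGraph (X ⊕ O) where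
  Adj
    | .inl x, .inl y => g.G.Adj x y
    | .inl _, .inr _ => True
    | .inr _, .inl _ => True
    | .inr _, .inr _ => False
  symm := ⟨by
    rintro (x | u) (y | v) h
    · exact (g.G.adj_comm _ _).mp h
    · exact h
    · exact h
    · exact h⟩
  loopless := ⟨by
    rintro (x | u) h
    · exact (g.G.ne_of_adj h) rfl
    · exact h⟩

/-- its colouring, on ordered pairs -/
def bigF : X ⊕ O → X ⊕ O → Sym2 (X ⊕ O)
  | .inl x, .inl y => (g.col s(x, y)).map Sum.inl
  | .inl x, .inr v => s(.inl x, .inr v)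
  | .inr u, .inl y => s(.inr u, .inl y)
  | .inr u, .inr v => s(.inr u, .inr v)

/-- its colouring -/
def bigC : Sym2 (X ⊕ O) → Sym2 (X ⊕ O) :=
  Sym2.lift ⟨bigF g O, by
    rintro (x | u) (y | v)
    · show (g.col s(x, y)).map Sum.inl = (g.col s(y, x)).map Sum.inl
      rw [Sym2.eq_swap]
    · exact Sym2.eq_swap
    · exact Sym2.eq_swap
    · exact Sym2.eq_swap⟩

theorem bigC_mk (a b : X ⊕ O) : bigC g O s(a, b) = bigF g O a b := rfl

theorem big_no (K : Finset (X ⊕ O)) (hK : RainbowClique (bigG g O) (bigC g O) K) :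
    K.card ≤ s + 1 := by
  have h1 : K.toRight.card ≤ 1 := by
    rw [Finset.card_le_one]
    intro u hu v hv
    by_contra huv
    rw [Finset.mem_toRight] at hu hv
    exact hK.1 _ hu _ hv (fun h => huv (Sum.inr_injective h))
  have h2 : K.toLeft.card ≤ s := by
    refine g.no K.toLeft ⟨?_, ?_⟩
    · intro a ha b hb hab
      rw [Finset.mem_toLeft] at ha hb
      exact hK.1 _ ha _ hb (fun h => hab (Sum.inl_injective h))
    · intro a ha b hb a' ha' b' hb' hab hab' heq
      rw [Finset.mem_toLeft] at ha hb ha' hb'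
      have h3 := hK.2 _ ha _ hb _ ha' _ hb' (fun h => hab (Sum.inl_injective h))
        (fun h => hab' (Sum.inl_injective h)) (by
          show (g.col s(a, b)).map Sum.inl = (g.col s(a', b')).map Sum.inl
          rw [heq])
      have h4 : (s(a, b)).map (Sum.inl : X → X ⊕ O) = (s(a', b')).map Sum.inl := h3
      exact Sym2.map.injective Sum.inl_injective h4
  have h3 := K.card_toLeft_add_card_toRight
  omega

theorem big_sat [DecidableEq O] (hX : Nonempty X) (enc : Sym2 (X ⊕ O) → ℕ)
    (henc : Function.Injective enc) (u v : O) (huv : u ≠ v) (c' : Sym2 (X ⊕ O) → ℕ)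
    (hc' : ∀ e, e ≠ s(Sum.inr u, Sum.inr v) → c' e = enc (bigC g O e)) :
    HasRainbow (bigG g O ⊔ SimpleGraph.edge (Sum.inr u) (Sum.inr v)) c' (s + 2) := by
  obtain ⟨x, hx⟩ : ∃ x : X, ∀ p : Sym2 (X ⊕ O), enc p = c' s(Sum.inr u, Sum.inr v) →
      (∃ z : X, (Sum.inl z : X ⊕ O) ∈ p) → (Sum.inl x : X ⊕ O) ∈ p := by
    by_cases h : ∃ p : Sym2 (X ⊕ O), enc p = c' s(Sum.inr u, Sum.inr v) ∧
      ∃ z : X, (Sum.inl z : X ⊕ O) ∈ p
    · obtain ⟨p, hp, z, hz⟩ := h
      refine ⟨z, fun q hq _ => ?_⟩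
      have : q = p := henc (hq.trans hp.symm)
      rw [this]; exact hz
    · obtain ⟨z⟩ := hX
      exact ⟨z, fun q hq hz => absurd ⟨q, hq, hz⟩ h⟩
  obtain ⟨K, hK, ⟨hK1, hK2⟩, hxK, hav⟩ := g.av x
  refine ⟨K.disjSum {u, v}, ?_, ?_, ?_⟩
  · rw [Finset.card_disjSum, hK, Finset.card_pair huv]
  · intro a ha b hb hab
    rw [SimpleGraph.sup_adj]
    rcases a with a | a <;> rcases b with b | b
    · rw [Finset.inl_mem_disjSum] at ha hb
      exact Or.inl (hK1 a ha b hb (fun h => hab (congrArg _ h)))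
    · exact Or.inl trivial
    · exact Or.inl trivial
    · right
      rw [Finset.inr_mem_disjSum, Finset.mem_insert, Finset.mem_singleton] at ha hb
      rw [SimpleGraph.edge_adj]
      refine ⟨?_, hab⟩
      rcases ha with rfl | rfl <;> rcases hb with rfl | rfl
      · exact absurd rfl hab
      · exact Or.inl ⟨rfl, rfl⟩
      · exact Or.inr ⟨rfl, rfl⟩
      · exact absurd rfl hab
  · -- colours inside the clique
    have hin : ∀ a b : O, a ∈ ({u, v} : Finset O) → b ∈ ({u, v} : Finset O) → a ≠ b →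
        s((Sum.inr a : X ⊕ O), Sum.inr b) = s(Sum.inr u, Sum.inr v) := by
      intro a b ha hb hab
      rw [Finset.mem_insert, Finset.mem_singleton] at ha hb
      rcases ha with rfl | rfl <;> rcases hb with rfl | rfl
      · exact absurd rfl hab
      · rfl
      · exact Sym2.eq_swap
      · exact absurd rfl hab
    have hne : ∀ a ∈ K.disjSum {u, v}, ∀ b ∈ K.disjSum {u, v}, a ≠ b →
        s(a, b) ≠ s(Sum.inr u, Sum.inr v) →
        enc (bigF g O a b) ≠ c' s(Sum.inr u, Sum.inr v) := by
      intro a ha b hb hab hne heq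
      rcases a with a | a <;> rcases b with b | b
      · rw [Finset.inl_mem_disjSum] at ha hb
        have hab' : a ≠ b := fun h => hab (congrArg _ h)
        have h1 := hx _ heq (by
          show ∃ z : X, (Sum.inl z : X ⊕ O) ∈ (g.col s(a, b)).map Sum.inl
          induction hcol : g.col s(a, b) using Sym2.ind with
          | _ p q =>
            refine ⟨p, ?_⟩
            rw [Sym2.map_mk]
            exact Sym2.mem_mk_left _ _)
        have h2 : (Sum.inl x : X ⊕ O) ∈ (g.col s(a, b)).map Sum.inl := h1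
        rw [Sym2.mem_map] at h2
        obtain ⟨y, hy, hyx⟩ := h2
        rw [Sum.inl_injective hyx] at hy
        exact hav a ha b hb hab' hy
      · rw [Finset.inl_mem_disjSum] at ha
        have h1 := hx _ heq ⟨a, by
          show (Sum.inl a : X ⊕ O) ∈ s(Sum.inl a, Sum.inr b)
          exact Sym2.mem_mk_left _ _⟩
        have h2 : (Sum.inl x : X ⊕ O) ∈ s((Sum.inl a : X ⊕ O), Sum.inr b) := h1
        rw [Sym2.mem_iff] at h2
        rcases h2 with h2 | h2
        · rw [Sum.inl_injective h2] at hxK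
          exact hxK ha
        · exact Sum.inl_ne_inr h2
      · rw [Finset.inl_mem_disjSum] at hb
        have h1 := hx _ heq ⟨b, by
          show (Sum.inl b : X ⊕ O) ∈ s(Sum.inr a, Sum.inl b)
          exact Sym2.mem_mk_right _ _⟩
        have h2 : (Sum.inl x : X ⊕ O) ∈ s((Sum.inr a : X ⊕ O), Sum.inl b) := h1
        rw [Sym2.mem_iff] at h2
        rcases h2 with h2 | h2
        · exact Sum.inl_ne_inr h2
        · rw [Sum.inl_injective h2] at hxK
          exact hxK hb
      · rw [Finset.inr_mem_disjSum] at ha hb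
        exact hne (hin a b ha hb (fun h => hab (congrArg _ h)))
    have hinj : ∀ a ∈ K.disjSum {u, v}, ∀ b ∈ K.disjSum {u, v}, ∀ a' ∈ K.disjSum {u, v},
        ∀ b' ∈ K.disjSum {u, v}, a ≠ b → a' ≠ b' → bigF g O a b = bigF g O a' b' →
        s(a, b) = s(a', b') := by
      have hmix : ∀ (x y : X) (w : O) (p : Sym2 (X ⊕ O)), (Sum.inr w : X ⊕ O) ∈ p →
          (g.col s(x, y)).map Sum.inl ≠ p := by
        intro x y w p hp heq
        rw [← heq, Sym2.mem_map] at hp
        obtain ⟨z, -, hz⟩ := hp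
        exact Sum.inl_ne_inr hz
      intro a ha b hb a' ha' b' hb' hab hab' heq
      rcases a with a | a <;> rcases b with b | b <;> rcases a' with a' | a' <;>
        rcases b' with b' | b'
      · rw [Finset.inl_mem_disjSum] at ha hb ha' hb'
        have h1 : (g.col s(a, b)).map (Sum.inl : X → X ⊕ O) = (g.col s(a', b')).map Sum.inl := heq
        have h2 := hK2 a ha b hb a' ha' b' hb' (fun h => hab (congrArg _ h))
          (fun h => hab' (congrArg _ h)) (Sym2.map.injective Sum.inl_injective h1)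
        have h3 : (s(a, b)).map (Sum.inl : X → X ⊕ O) = (s(a', b')).map Sum.inl := by rw [h2]
        exact h3
      · exact absurd heq (hmix a b b' _ (Sym2.mem_mk_right _ _))
      · exact absurd heq (hmix a b a' _ (Sym2.mem_mk_left _ _))
      · exact absurd heq (hmix a b a' _ (Sym2.mem_mk_left _ _))
      · exact absurd heq.symm (hmix a' b' b _ (Sym2.mem_mk_right _ _))
      · exact heq
      · exact heq
      · exact heq
      · exact absurd heq.symm (hmix a' b' a _ (Sym2.mem_mk_left _ _))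
      · exact heq
      · exact heq
      · exact heq
      · exact absurd heq.symm (hmix a' b' a _ (Sym2.mem_mk_left _ _))
      · exact heq
      · exact heq
      · exact heq
    intro a ha b hb a' ha' b' hb' hab hab' heq
    by_cases h1 : s(a, b) = s(Sum.inr u, Sum.inr v)
    · by_cases h2 : s(a', b') = s(Sum.inr u, Sum.inr v)
      · rw [h1, h2]
      · exfalso
        rw [h1, hc' _ h2] at heq
        exact hne a' ha' b' hb' hab' h2 heq.symm
    · by_cases h2 : s(a', b') = s(Sum.inr u, Sum.inr v)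
      · exfalso
        rw [h2, hc' _ h1] at heq
        exact hne a ha b hb hab h1 heq
      · rw [hc' _ h1, hc' _ h2] at heq
        exact hinj a ha b hb a' ha' b' hb' hab hab' (henc heq)

end assemble

/-! ### The complete multipartite gadget -/

/-- `s` pairs of non-adjacent vertices, all edges with their own colours -/
def pairGadget (s : ℕ) : Gadget (Fin s × Bool) s where
  G :=
    { Adj := fun a b => a.1 ≠ b.1
      symm := ⟨fun _ _ h => h.symm⟩
      loopless := ⟨fun _ h => h rfl⟩ }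
  col := id
  no := by
    intro K hK
    have h : Set.InjOn Prod.fst (K : Set (Fin s × Bool)) := by
      intro a ha b hb hab
      by_contra hne
      exact hK.1 a ha b hb hne hab
    have h1 := Finset.card_le_card_of_injOn (t := (univ : Finset (Fin s))) Prod.fst
      (fun _ _ => Finset.mem_univ _) h
    rwa [Finset.card_univ, Fintype.card_fin] at h1
  av := by
    rintro ⟨i, b⟩
    have hx : (i, b) ∉ univ.image (fun j : Fin s => (j, !b)) := by
      intro h
      obtain ⟨j, -, hj⟩ := Finset.mem_image.mp h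
      have := congrArg Prod.snd hj
      cases b <;> simp at this
    refine ⟨univ.image (fun j : Fin s => (j, !b)), ?_, ⟨?_, ?_⟩, hx, ?_⟩
    · rw [Finset.card_image_of_injective _ (fun j j' h => congrArg Prod.fst h), Finset.card_univ,
        Fintype.card_fin]
    · intro a ha a' ha' hne
      obtain ⟨j, -, rfl⟩ := Finset.mem_image.mp ha
      obtain ⟨j', -, rfl⟩ := Finset.mem_image.mp ha'
      show j ≠ j'
      rintro rfl
      exact hne rfl
    · intro a _ a' _ c _ c' _ _ _ h
      exact h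
    · intro a ha a' ha' _ h
      rw [id_eq, Sym2.mem_iff] at h
      rcases h with h | h
      · exact hx (h ▸ ha)
      · exact hx (h ▸ ha')

/-! ### The gadget of triples -/

theorem fin3 {α : Type} {i j : Fin 3} {a b : α} (hij : i ≠ j) : (i, a) ≠ (j, b) :=
  fun h => hij (congrArg Prod.fst h)

/-- triples -/
abbrev Tr (m : ℕ) : Type := Fin (m + 2) × Fin (m + 2) × Fin (m + 2)

/-- the vertex responsible for the triple `p q r` -/
def pr {m : ℕ} (Y : Finset (Tr m)) (p q r : Fin (m + 2)) : Tr m :=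
  if (p, q, r) ∈ Y then (p, q, r) else (0, q, r)

theorem pr_snd {m : ℕ} (Y : Finset (Tr m)) (p q r : Fin (m + 2)) : (pr Y p q r).2 = (q, r) := by
  unfold pr
  split_ifs <;> rfl

theorem pr_mem {m : ℕ} {Y : Finset (Tr m)} (hY : ∀ q r, ((0 : Fin (m + 2)), q, r) ∈ Y)
    (p q r : Fin (m + 2)) : pr Y p q r ∈ Y := by
  unfold pr
  split_ifs with h
  · exact h
  · exact hY q r

theorem pr_self {m : ℕ} {Y : Finset (Tr m)} {p q r : Fin (m + 2)} (h : (p, q, r) ∈ Y) :
    pr Y p q r = (p, q, r) := if_pos h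

/-- the vertices: `(0, p)`, `(1, q)`, `(2, r)` and `Y` -/
abbrev TV {m : ℕ} (Y : Finset (Tr m)) : Type := (Fin 3 × Fin (m + 2)) ⊕ Y

/-- the edge from `a` to `y` has the colour of an edge between the second and the third part -/
def Spc {m : ℕ} (Y : Finset (Tr m)) (a : Fin 3 × Fin (m + 2)) (y : Y) : Prop :=
  a.1 = 0 ∧ pr Y a.2 y.1.2.1 y.1.2.2 = y.1

instance {m : ℕ} (Y : Finset (Tr m)) (a : Fin 3 × Fin (m + 2)) (y : Y) : Decidable (Spc Y a y) :=
  inferInstanceAs (Decidable (_ ∧ _))

/-- that colour -/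
def scol {m : ℕ} {Y : Finset (Tr m)} (y : Y) : Sym2 (TV Y) :=
  s(Sum.inl (1, y.1.2.1), Sum.inl (2, y.1.2.2))

/-- the colouring on ordered pairs -/
def triF {m : ℕ} (Y : Finset (Tr m)) : TV Y → TV Y → Sym2 (TV Y)
  | .inl a, .inl b => s(.inl a, .inl b)
  | .inl a, .inr y => if Spc Y a y then scol y else s(.inl a, .inr y)
  | .inr y, .inl a => if Spc Y a y then scol y else s(.inr y, .inl a)
  | .inr y, .inr z => s(.inr y, .inr z)

/-- the colouring -/
def triC {m : ℕ} (Y : Finset (Tr m)) : Sym2 (TV Y) → Sym2 (TV Y) :=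
  Sym2.lift ⟨triF Y, by
    rintro (a | y) (b | z)
    · exact Sym2.eq_swap
    · show (if Spc Y a z then scol z else s(.inl a, .inr z)) =
        (if Spc Y a z then scol z else s(.inr z, .inl a))
      rw [Sym2.eq_swap]
    · show (if Spc Y b y then scol y else s(.inr y, .inl b)) =
        (if Spc Y b y then scol y else s(.inl b, .inr y))
      rw [Sym2.eq_swap]
    · exact Sym2.eq_swap⟩

/-- the graph -/
def triG {m : ℕ} (Y : Finset (Tr m)) : SimpleGraph (TV Y) where
  Adj
    | .inl a, .inl b => a.1 ≠ b.1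
    | .inl _, .inr _ => True
    | .inr _, .inl _ => True
    | .inr y, .inr z => y ≠ z
  symm := ⟨by
    rintro (x | u) (y | v) h
    · exact h.symm
    · exact h
    · exact h
    · exact h.symm⟩
  loopless := ⟨by
    rintro (x | u) h
    · exact h rfl
    · exact h rfl⟩

theorem triC_cases {m : ℕ} (Y : Finset (Tr m)) (a b : TV Y) :
    triC Y s(a, b) = s(a, b) ∨ ∃ (p : Fin (m + 2)) (y : Y), s(a, b) = s(Sum.inr y, Sum.inl (0, p)) ∧
      pr Y p y.1.2.1 y.1.2.2 = y.1 ∧ triC Y s(a, b) = scol y := by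
  rcases a with ⟨i, p⟩ | y <;> rcases b with ⟨j, q⟩ | z
  · exact Or.inl rfl
  · by_cases h : Spc Y (i, p) z
    · right
      have h1 : i = 0 := h.1
      subst h1
      exact ⟨p, z, Sym2.eq_swap, h.2, if_pos h⟩
    · exact Or.inl (if_neg h)
  · by_cases h : Spc Y (j, q) y
    · right
      have h1 : j = 0 := h.1
      subst h1
      exact ⟨q, y, rfl, h.2, if_pos h⟩
    · exact Or.inl (if_neg h)
  · exact Or.inl rfl

theorem tri_no {m : ℕ} {Y : Finset (Tr m)} (hY : ∀ q r, ((0 : Fin (m + 2)), q, r) ∈ Y)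
    (K : Finset (TV Y)) (hK : RainbowClique (triG Y) (triC Y) K) : K.card ≤ Y.card + 2 := by
  by_contra hcon
  have h0 := K.card_toLeft_add_card_toRight
  have hinj : Set.InjOn Prod.fst (K.toLeft : Set (Fin 3 × Fin (m + 2))) := by
    intro a ha b hb hab
    rw [Finset.mem_coe, Finset.mem_toLeft] at ha hb
    by_contra hne
    exact hK.1 _ ha _ hb (fun h => hne (Sum.inl_injective h)) hab
  have h1 : K.toLeft.card ≤ 3 := by
    have h2 := Finset.card_le_card_of_injOn (t := (univ : Finset (Fin 3))) Prod.fst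
      (fun _ _ => Finset.mem_univ _) hinj
    rwa [Finset.card_univ, Fintype.card_fin] at h2
  have h2 : K.toRight.card ≤ Y.card := by
    have h3 := Finset.card_le_univ K.toRight
    rwa [Fintype.card_coe] at h3
  have h3 : K.toLeft.card = 3 := by omega
  have h4 : K.toRight.card = Y.card := by omega
  have h5 : K.toRight = univ := by
    rw [← Finset.card_eq_iff_eq_univ, h4, Fintype.card_coe]
  have h6 : K.toLeft.image Prod.fst = univ := by
    rw [← Finset.card_eq_iff_eq_univ, Finset.card_image_of_injOn hinj, h3, Fintype.card_fin]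
  have h7 : ∀ i : Fin 3, ∃ p, (Sum.inl (i, p) : TV Y) ∈ K := by
    intro i
    have h8 : i ∈ K.toLeft.image Prod.fst := by rw [h6]; exact Finset.mem_univ i
    obtain ⟨⟨j, p⟩, hp, hj⟩ := Finset.mem_image.mp h8
    have hj' : j = i := hj
    subst hj'
    exact ⟨p, Finset.mem_toLeft.mp hp⟩
  obtain ⟨p, hp⟩ := h7 0
  obtain ⟨q, hq⟩ := h7 1
  obtain ⟨r, hr⟩ := h7 2
  have hy : (Sum.inr ⟨pr Y p q r, pr_mem hY p q r⟩ : TV Y) ∈ K := by
    rw [← Finset.mem_toRight, h5]
    exact Finset.mem_univ _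
  have hs : Spc Y (0, p) ⟨pr Y p q r, pr_mem hY p q r⟩ := by
    refine ⟨rfl, ?_⟩
    show pr Y p (pr Y p q r).2.1 (pr Y p q r).2.2 = pr Y p q r
    rw [pr_snd]
  have hc : triC Y s(Sum.inr ⟨pr Y p q r, pr_mem hY p q r⟩, Sum.inl (0, p)) =
      triC Y s(Sum.inl (1, q), Sum.inl (2, r)) := by
    show (if Spc Y (0, p) ⟨pr Y p q r, pr_mem hY p q r⟩ then
      scol (⟨pr Y p q r, pr_mem hY p q r⟩ : Y) else _) = s(Sum.inl (1, q), Sum.inl (2, r))
    rw [if_pos hs]
    show s(Sum.inl (1, (pr Y p q r).2.1), Sum.inl (2, (pr Y p q r).2.2)) = _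
    rw [pr_snd]
  have h9 := hK.2 _ hy _ hp _ hq _ hr (fun h => Sum.inr_ne_inl h)
    (fun h => by simpa using congrArg Prod.fst (Sum.inl_injective h)) hc
  rw [Sym2.eq_iff] at h9
  rcases h9 with h9 | h9
  · exact Sum.inr_ne_inl h9.1
  · exact Sum.inr_ne_inl h9.1

theorem tri_av1 {m : ℕ} {Y : Finset (Tr m)} (y : Y) : ∃ K : Finset (TV Y), K.card = Y.card + 2 ∧
    RainbowClique (triG Y) (triC Y) K ∧ Sum.inr y ∉ K ∧
    ∀ a ∈ K, ∀ b ∈ K, a ≠ b → Sum.inr y ∉ triC Y s(a, b) := by
  obtain ⟨⟨p, q, r⟩, hy⟩ := y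
  obtain ⟨K, hKdef⟩ : ∃ K : Finset (TV Y), K =
      ({(0, p), (1, q), (2, r)} : Finset (Fin 3 × Fin (m + 2))).disjSum
        (univ.erase (⟨(p, q, r), hy⟩ : Y)) := ⟨_, rfl⟩
  have hl : ∀ a, (Sum.inl a : TV Y) ∈ K ↔ a = (0, p) ∨ a = (1, q) ∨ a = (2, r) := by
    intro a
    rw [hKdef, Finset.inl_mem_disjSum, Finset.mem_insert, Finset.mem_insert, Finset.mem_singleton]
  have hr' : ∀ z : Y, (Sum.inr z : TV Y) ∈ K ↔ z ≠ ⟨(p, q, r), hy⟩ := by
    intro z
    rw [hKdef, Finset.inr_mem_disjSum, Finset.mem_erase]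
    exact ⟨fun h => h.1, fun h => ⟨h, Finset.mem_univ z⟩⟩
  have hyK : (Sum.inr ⟨(p, q, r), hy⟩ : TV Y) ∉ K := fun h => (hr' _).mp h rfl
  have key : ∀ a ∈ K, ∀ b ∈ K, triC Y s(a, b) = s(a, b) ∨ ∃ (y : Y),
      s(a, b) = s(Sum.inr y, Sum.inl (0, p)) ∧ pr Y p y.1.2.1 y.1.2.2 = y.1 ∧
      (Sum.inl (1, y.1.2.1) ∉ K ∨ Sum.inl (2, y.1.2.2) ∉ K) ∧ triC Y s(a, b) = scol y := by
    intro a ha b hb
    rcases triC_cases Y a b with h | ⟨p', y, h1, h2, h3⟩
    · exact Or.inl h
    · right
      have h4 : (Sum.inl (0, p') : TV Y) ∈ K ∧ (Sum.inr y : TV Y) ∈ K := by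
        rw [Sym2.eq_iff] at h1
        rcases h1 with ⟨rfl, rfl⟩ | ⟨rfl, rfl⟩
        · exact ⟨hb, ha⟩
        · exact ⟨ha, hb⟩
      have h5 : p' = p := by
        rcases (hl _).mp h4.1 with h | h | h
        · exact congrArg Prod.snd h
        · exact absurd h (fin3 (by decide))
        · exact absurd h (fin3 (by decide))
      subst h5
      refine ⟨y, h1, h2, ?_, h3⟩
      by_contra hcon
      push Not at hcon
      obtain ⟨h6, h7⟩ := hcon
      have h8 : y.1.2.1 = q := by
        rcases (hl _).mp h6 with h | h | h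
        · exact absurd h (fin3 (by decide))
        · exact congrArg Prod.snd h
        · exact absurd h (fin3 (by decide))
      have h9 : y.1.2.2 = r := by
        rcases (hl _).mp h7 with h | h | h
        · exact absurd h (fin3 (by decide))
        · exact absurd h (fin3 (by decide))
        · exact congrArg Prod.snd h
      rw [h8, h9, pr_self hy] at h2
      exact (hr' y).mp h4.2 (Subtype.ext h2.symm)
  refine ⟨K, ?_, ⟨?_, ?_⟩, hyK, ?_⟩
  · rw [hKdef, Finset.card_disjSum, Finset.card_erase_of_mem (Finset.mem_univ _), Finset.card_univ,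
      Fintype.card_coe]
    have h1 : ({(0, p), (1, q), (2, r)} : Finset (Fin 3 × Fin (m + 2))).card = 3 := by
      rw [Finset.card_insert_of_notMem, Finset.card_insert_of_notMem, Finset.card_singleton]
      · rw [Finset.mem_singleton]
        intro h
        exact absurd h (fin3 (by decide))
      · rw [Finset.mem_insert, Finset.mem_singleton]
        rintro (h | h)
        · exact absurd h (fin3 (by decide))
        · exact absurd h (fin3 (by decide))
    have h2 : 0 < Y.card := Finset.card_pos.mpr ⟨_, hy⟩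
    omega
  · intro a ha b hb hab
    rcases a with a | a <;> rcases b with b | b
    · show a.1 ≠ b.1
      intro h
      apply hab
      rcases (hl a).mp ha with rfl | rfl | rfl <;> rcases (hl b).mp hb with rfl | rfl | rfl <;>
        first | rfl | (simp at h)
    · trivial
    · trivial
    · exact fun h => hab (congrArg _ h)
  · intro a ha b hb a' ha' b' hb' hab hab' heq
    rcases key a ha b hb with h | ⟨y, h1, h2, h3, h4⟩
    · rcases key a' ha' b' hb' with h' | ⟨y', h1', h2', h3', h4'⟩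
      · rw [h, h'] at heq
        exact heq
      · exfalso
        rw [h, h4'] at heq
        have h5 : (Sum.inl (1, y'.1.2.1) : TV Y) ∈ K ∧ (Sum.inl (2, y'.1.2.2) : TV Y) ∈ K := by
          unfold scol at heq
          rw [Sym2.eq_iff] at heq
          rcases heq with ⟨rfl, rfl⟩ | ⟨rfl, rfl⟩
          · exact ⟨ha, hb⟩
          · exact ⟨hb, ha⟩
        rcases h3' with h3' | h3'
        · exact h3' h5.1
        · exact h3' h5.2
    · rcases key a' ha' b' hb' with h' | ⟨y', h1', h2', h3', h4'⟩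
      · exfalso
        rw [h', h4] at heq
        have h5 : (Sum.inl (1, y.1.2.1) : TV Y) ∈ K ∧ (Sum.inl (2, y.1.2.2) : TV Y) ∈ K := by
          unfold scol at heq
          rw [eq_comm, Sym2.eq_iff] at heq
          rcases heq with ⟨rfl, rfl⟩ | ⟨rfl, rfl⟩
          · exact ⟨ha', hb'⟩
          · exact ⟨hb', ha'⟩
        rcases h3 with h3 | h3
        · exact h3 h5.1
        · exact h3 h5.2
      · rw [h4, h4'] at heq
        unfold scol at heq
        rw [Sym2.eq_iff] at heq
        have h5 : y.1.2.1 = y'.1.2.1 ∧ y.1.2.2 = y'.1.2.2 := by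
          rcases heq with ⟨e1, e2⟩ | ⟨e1, e2⟩
          · exact ⟨(Prod.mk.inj (Sum.inl_injective e1)).2,
              (Prod.mk.inj (Sum.inl_injective e2)).2⟩
          · exact absurd (Sum.inl_injective e1) (fin3 (by decide))
        have h6 : y = y' := by
          apply Subtype.ext
          rw [← h2, ← h2', h5.1, h5.2]
        rw [h1, h1', h6]
  · intro a ha b hb _ hmem
    rcases key a ha b hb with h | ⟨y, h1, h2, h3, h4⟩
    · rw [h, Sym2.mem_iff] at hmem
      rcases hmem with rfl | rfl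
      · exact hyK ha
      · exact hyK hb
    · rw [h4] at hmem
      unfold scol at hmem
      rw [Sym2.mem_iff] at hmem
      rcases hmem with h | h
      · exact Sum.inr_ne_inl h
      · exact Sum.inr_ne_inl h

theorem tri_av2 {m : ℕ} {Y : Finset (Tr m)} (i : Fin 3) (p0 : Fin (m + 2)) :
    ∃ K : Finset (TV Y), K.card = Y.card + 2 ∧
    RainbowClique (triG Y) (triC Y) K ∧ Sum.inl (i, p0) ∉ K ∧
    ∀ a ∈ K, ∀ b ∈ K, a ≠ b → Sum.inl (i, p0) ∉ triC Y s(a, b) := by
  obtain ⟨q, hq⟩ : ∃ q : Fin (m + 2), q ≠ p0 := exists_ne p0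
  obtain ⟨K, hKdef⟩ : ∃ K : Finset (TV Y), K =
      ({(1, q), (2, q)} : Finset (Fin 3 × Fin (m + 2))).disjSum (univ : Finset Y) := ⟨_, rfl⟩
  have hl : ∀ a, (Sum.inl a : TV Y) ∈ K ↔ a = (1, q) ∨ a = (2, q) := by
    intro a
    rw [hKdef, Finset.inl_mem_disjSum, Finset.mem_insert, Finset.mem_singleton]
  have hxK : (Sum.inl (i, p0) : TV Y) ∉ K := by
    intro h
    rcases (hl _).mp h with h | h
    · exact hq (congrArg Prod.snd h).symm
    · exact hq (congrArg Prod.snd h).symm
  have key : ∀ a ∈ K, ∀ b ∈ K, triC Y s(a, b) = s(a, b) := by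
    intro a ha b hb
    rcases triC_cases Y a b with h | ⟨p', y, h1, h2, h3⟩
    · exact h
    · exfalso
      have h4 : (Sum.inl (0, p') : TV Y) ∈ K := by
        rw [Sym2.eq_iff] at h1
        rcases h1 with ⟨rfl, rfl⟩ | ⟨rfl, rfl⟩
        · exact hb
        · exact ha
      rcases (hl _).mp h4 with h | h
      · exact absurd h (fin3 (by decide))
      · exact absurd h (fin3 (by decide))
  refine ⟨K, ?_, ⟨?_, ?_⟩, hxK, ?_⟩
  · rw [hKdef, Finset.card_disjSum, Finset.card_univ, Fintype.card_coe, Finset.card_pair]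
    · omega
    · intro h
      exact absurd h (fin3 (by decide))
  · intro a ha b hb hab
    rcases a with a | a <;> rcases b with b | b
    · show a.1 ≠ b.1
      intro h
      apply hab
      rcases (hl a).mp ha with rfl | rfl <;> rcases (hl b).mp hb with rfl | rfl <;>
        first | rfl | (simp at h)
    · trivial
    · trivial
    · exact fun h => hab (congrArg _ h)
  · intro a ha b hb a' ha' b' hb' _ _ heq
    rw [key a ha b hb, key a' ha' b' hb'] at heq
    exact heq
  · intro a ha b hb _ hmem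
    rw [key a ha b hb, Sym2.mem_iff] at hmem
    rcases hmem with rfl | rfl
    · exact hxK ha
    · exact hxK hb

/-- the gadget of triples -/
def triGadget {m : ℕ} {Y : Finset (Tr m)} (hY : ∀ q r, ((0 : Fin (m + 2)), q, r) ∈ Y) :
    Gadget (TV Y) (Y.card + 2) where
  G := triG Y
  col := triC Y
  no := tri_no hY
  av := by
    rintro (⟨i, p⟩ | y)
    · exact tri_av2 i p
    · exact tri_av1 y

/-! ### The saturated graphs -/

theorem transfer {V W : Type} (e : V ≃ W) (r : ℕ) {G : SimpleGraph W} {c : Sym2 W → ℕ} :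
    HasRainbow (G.comap e) (fun p => c (p.map e)) r ↔ HasRainbow G c r := by
  classical
  constructor
  · rintro ⟨K, hK, h1, h2⟩
    refine ⟨K.map e.toEmbedding, by rw [Finset.card_map]; exact hK, ?_, ?_⟩
    · intro x hx y hy hab
      obtain ⟨a, ha, rfl⟩ := Finset.mem_map.mp hx
      obtain ⟨b, hb, rfl⟩ := Finset.mem_map.mp hy
      exact h1 a ha b hb (fun h => hab (congrArg _ h))
    · intro x hx y hy x' hx' y' hy' hab hab' heq
      obtain ⟨a, ha, rfl⟩ := Finset.mem_map.mp hx
      obtain ⟨b, hb, rfl⟩ := Finset.mem_map.mp hy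
      obtain ⟨a', ha', rfl⟩ := Finset.mem_map.mp hx'
      obtain ⟨b', hb', rfl⟩ := Finset.mem_map.mp hy'
      have h3 := h2 a ha b hb a' ha' b' hb' (fun h => hab (congrArg _ h))
        (fun h => hab' (congrArg _ h)) heq
      exact congrArg (Sym2.map e) h3
  · rintro ⟨K, hK, h1, h2⟩
    refine ⟨K.map e.symm.toEmbedding, by rw [Finset.card_map]; exact hK, ?_, ?_⟩
    · intro x hx y hy hab
      obtain ⟨a, ha, rfl⟩ := Finset.mem_map.mp hx
      obtain ⟨b, hb, rfl⟩ := Finset.mem_map.mp hy
      show G.Adj (e (e.symm a)) (e (e.symm b))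
      rw [e.apply_symm_apply, e.apply_symm_apply]
      exact h1 a ha b hb (fun h => hab (congrArg _ h))
    · intro x hx y hy x' hx' y' hy' hab hab' heq
      obtain ⟨a, ha, rfl⟩ := Finset.mem_map.mp hx
      obtain ⟨b, hb, rfl⟩ := Finset.mem_map.mp hy
      obtain ⟨a', ha', rfl⟩ := Finset.mem_map.mp hx'
      obtain ⟨b', hb', rfl⟩ := Finset.mem_map.mp hy'
      have heq' : c s(e (e.symm a), e (e.symm b)) = c s(e (e.symm a'), e (e.symm b')) := heq
      rw [e.apply_symm_apply, e.apply_symm_apply, e.apply_symm_apply, e.apply_symm_apply] at heq'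
      have h3 := h2 a ha b hb a' ha' b' hb' (fun h => hab (congrArg _ h))
        (fun h => hab' (congrArg _ h)) heq'
      exact congrArg (Sym2.map e.symm) h3

/-- A gadget gives a coloured graph without rainbow `K_(s+2)` on `n` vertices, in which the vertices
outside of the gadget are pairwise saturated. -/
theorem seed {X : Type} [Fintype X] [Nonempty X] {s : ℕ} (g : Gadget X s) (n : ℕ)
    (hn : Fintype.card X ≤ n) : ∃ (G : SimpleGraph (Fin n)) (c : Sym2 (Fin n) → ℕ)
    (A : Finset (Fin n)), A.card = Fintype.card X ∧ ¬ HasRainbow G c (s + 2) ∧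
      ∀ u v : Fin n, u ∉ A → v ∉ A → u ≠ v → ∀ c' : Sym2 (Fin n) → ℕ,
        (∀ e, e ≠ s(u, v) → c' e = c e) →
        HasRainbow (G ⊔ SimpleGraph.edge u v) c' (s + 2) := by
  classical
  obtain ⟨k, rfl⟩ := Nat.exists_eq_add_of_le hn
  have hcard : Fintype.card (Fin (Fintype.card X + k)) = Fintype.card (X ⊕ Fin k) := by
    rw [Fintype.card_fin, Fintype.card_sum, Fintype.card_fin]
  obtain ⟨e⟩ : Nonempty (Fin (Fintype.card X + k) ≃ X ⊕ Fin k) :=
    ⟨Fintype.equivOfCardEq hcard⟩
  obtain ⟨enc, henc⟩ := exists_injective_nat (Sym2 (X ⊕ Fin k))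
  refine ⟨(bigG g (Fin k)).comap e, fun p => enc (bigC g (Fin k) (p.map e)),
    univ.image (fun x : X => e.symm (Sum.inl x)), ?_, ?_, ?_⟩
  · rw [Finset.card_image_of_injective (f := fun x : X => e.symm (Sum.inl x)) _
      (fun a b h => Sum.inl_injective (e.symm.injective h)), Finset.card_univ]
  · rw [transfer e (s + 2) (G := bigG g (Fin k)) (c := fun q => enc (bigC g (Fin k) q))]
    rintro ⟨K, hK, h1, h2⟩
    have h3 := big_no g (Fin k) K ⟨h1, fun a ha b hb a' ha' b' hb' hab hab' heq =>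
      h2 a ha b hb a' ha' b' hb' hab hab' (congrArg enc heq)⟩
    omega
  · intro u v hu hv huv c' hc'
    have hout : ∀ w : Fin (Fintype.card X + k),
        w ∉ univ.image (fun x : X => e.symm (Sum.inl x)) → ∃ o : Fin k, e w = Sum.inr o := by
      intro w hw
      rcases hew : e w with x | o
      · exfalso
        apply hw
        rw [Finset.mem_image]
        exact ⟨x, Finset.mem_univ x, by rw [← hew, e.symm_apply_apply]⟩
      · exact ⟨o, rfl⟩
    obtain ⟨o, ho⟩ := hout u hu
    obtain ⟨o', ho'⟩ := hout v hv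
    have hoo : o ≠ o' := by
      rintro rfl
      exact huv (e.injective (ho.trans ho'.symm))
    have h1 := big_sat g (Fin k) inferInstance enc henc o o' hoo (fun q => c' (q.map e.symm)) (by
      intro q hq
      have h2 : q.map e.symm ≠ s(u, v) := by
        intro h
        apply hq
        have h3 : (q.map e.symm).map e = s(e u, e v) := by rw [h]; rfl
        rw [Sym2.map_map] at h3
        have h4 : (e : Fin (Fintype.card X + k) → X ⊕ Fin k) ∘ e.symm = id := by
          funext z
          exact e.apply_symm_apply z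
        rw [h4, Sym2.map_id, id_eq, ho, ho'] at h3
        exact h3
      show c' (q.map e.symm) = _
      rw [hc' _ h2]
      show enc (bigC g (Fin k) ((q.map e.symm).map e)) = enc (bigC g (Fin k) q)
      rw [Sym2.map_map]
      have h4 : (e : Fin (Fintype.card X + k) → X ⊕ Fin k) ∘ e.symm = id := by
        funext z
        exact e.apply_symm_apply z
      rw [h4, Sym2.map_id, id_eq])
    rw [← transfer e] at h1
    obtain ⟨K, hK, h2, h3⟩ := h1
    refine ⟨K, hK, ?_, ?_⟩
    · intro a ha b hb hab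
      have h4 : (bigG g (Fin k) ⊔ SimpleGraph.edge (Sum.inr o) (Sum.inr o')).Adj (e a) (e b) :=
        h2 a ha b hb hab
      rw [SimpleGraph.sup_adj] at h4 ⊢
      rcases h4 with h4 | h4
      · exact Or.inl h4
      · right
        rw [SimpleGraph.edge_adj, ← ho, ← ho'] at h4
        rw [SimpleGraph.edge_adj]
        refine ⟨?_, hab⟩
        rcases h4.1 with ⟨h5, h6⟩ | ⟨h5, h6⟩
        · exact Or.inl ⟨e.injective h5, e.injective h6⟩
        · exact Or.inr ⟨e.injective h5, e.injective h6⟩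
    · intro a ha b hb a' ha' b' hb' hab hab' heq
      refine h3 a ha b hb a' ha' b' hb' hab hab' ?_
      show c' s(e.symm (e a), e.symm (e b)) = c' s(e.symm (e a'), e.symm (e b'))
      rw [e.symm_apply_apply, e.symm_apply_apply, e.symm_apply_apply, e.symm_apply_apply]
      exact heq

/-- A gadget gives saturated graphs on any number of vertices. -/
theorem main {X : Type} [Fintype X] [Nonempty X] {s : ℕ} (hs : 1 ≤ s) (g : Gadget X s) (n : ℕ) :
    ∃ (G : SimpleGraph (Fin n)) (c : Sym2 (Fin n) → ℕ), Saturated (s + 2) G c ∧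
      G.edgeSet.ncard ≤ Fintype.card X * n := by
  classical
  by_cases hn : n < Fintype.card X
  · have h0 : ¬ HasRainbow (⊥ : SimpleGraph (Fin n)) (fun _ => 0) (s + 2) := by
      rintro ⟨K, hK, h1, -⟩
      obtain ⟨a, ha, b, hb, hab⟩ := Finset.one_lt_card.mp (show 1 < K.card by omega)
      exact h1 a ha b hb hab
    obtain ⟨G, c, -, -, h3⟩ := extend (s + 2) _ _ h0
    refine ⟨G, c, h3, ?_⟩
    have h4 : G.edgeSet ⊆ ((univ : Finset (Fin n × Fin n)).image (fun p => s(p.1, p.2)) :
        Set (Sym2 (Fin n))) := by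
      intro e _
      induction e using Sym2.ind with
      | _ a b =>
        rw [Finset.coe_image]
        exact ⟨(a, b), Finset.mem_coe.mpr (Finset.mem_univ _), rfl⟩
    have h5 := Set.ncard_le_ncard h4 (Finset.finite_toSet _)
    rw [Set.ncard_coe_finset] at h5
    have h6 : ((univ : Finset (Fin n × Fin n)).image (fun p => s(p.1, p.2))).card ≤ n * n := by
      refine Finset.card_image_le.trans ?_
      rw [Finset.card_univ, Fintype.card_prod, Fintype.card_fin]
    exact (h5.trans h6).trans (Nat.mul_le_mul_right n hn.le)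
  · push Not at hn
    obtain ⟨G0, c0, A, hA, h0, hsat⟩ := seed g n hn
    obtain ⟨G, c, h1, h2, h3⟩ := extend (s + 2) G0 c0 h0
    refine ⟨G, c, h3, ?_⟩
    have h4 : G.edgeSet ⊆ ((A ×ˢ (univ : Finset (Fin n))).image (fun p => s(p.1, p.2)) :
        Set (Sym2 (Fin n))) := by
      intro e
      induction e using Sym2.ind with
      | _ a b =>
        intro he
        have hab : G.Adj a b := he
        rw [Finset.coe_image]
        by_cases ha : a ∈ A
        · exact ⟨(a, b), Finset.mem_coe.mpr (Finset.mem_product.mpr ⟨ha, Finset.mem_univ _⟩), rfl⟩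
        · by_cases hb : b ∈ A
          · exact ⟨(b, a), Finset.mem_coe.mpr (Finset.mem_product.mpr ⟨hb, Finset.mem_univ _⟩),
              Sym2.eq_swap⟩
          · exact absurd hab (stays h1 h2 h3.1 (hsat a b ha hb (G.ne_of_adj hab)))
    have h5 := Set.ncard_le_ncard h4 (Finset.finite_toSet _)
    rw [Set.ncard_coe_finset] at h5
    have h6 : ((A ×ˢ (univ : Finset (Fin n))).image (fun p => s(p.1, p.2))).card ≤
        Fintype.card X * n := by
      refine Finset.card_image_le.trans ?_
      rw [Finset.card_product, hA, Finset.card_univ, Fintype.card_fin]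
    exact h5.trans h6

/-! ### The numbers -/

/-- for `r ≥ 8` there is a gadget of size `r - 2` with `r + 3 m - 4` vertices, `m - 1 < (r-4)^(1/3)` -/
theorem exists_tri (N : ℕ) (hN : 4 ≤ N) : ∃ (m : ℕ) (Y : Finset (Tr m)),
    (∀ q r, ((0 : Fin (m + 2)), q, r) ∈ Y) ∧ Y.card = N ∧ (m + 1) ^ 3 < N := by
  classical
  have hex : ∃ k : ℕ, N ≤ k ^ 3 := ⟨N, Nat.le_self_pow (by norm_num) N⟩
  obtain ⟨k, hk1, hk2⟩ : ∃ k, N ≤ k ^ 3 ∧ ∀ j < k, ¬ N ≤ j ^ 3 :=
    ⟨Nat.find hex, Nat.find_spec hex, fun j hj => Nat.find_min hex hj⟩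
  have hk3 : 2 ≤ k := by
    by_contra h
    have h1 : k = 0 ∨ k = 1 := by omega
    rcases h1 with rfl | rfl
    · norm_num at hk1; omega
    · norm_num at hk1; omega
  obtain ⟨m, rfl⟩ := Nat.exists_eq_add_of_le' hk3
  have hlow : (m + 1) ^ 3 < N := not_le.mp (hk2 (m + 1) (by omega))
  have hsq : (m + 2) ^ 2 ≤ N := by
    rcases Nat.eq_zero_or_pos m with rfl | hm
    · simpa using hN
    · have h1 : (m + 2) ^ 2 ≤ (m + 1) ^ 3 + 1 := by
        obtain ⟨t, rfl⟩ := Nat.exists_eq_add_of_le' hm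
        nlinarith [Nat.zero_le t, Nat.zero_le (t ^ 2), Nat.zero_le (t ^ 3)]
      omega
  obtain ⟨B, hB⟩ : ∃ B : Finset (Tr m), B =
    (univ : Finset (Fin (m + 2) × Fin (m + 2))).image (fun p => (0, p.1, p.2)) := ⟨_, rfl⟩
  have hBc : B.card ≤ N := by
    refine le_trans ?_ hsq
    rw [hB]
    refine Finset.card_image_le.trans ?_
    rw [Finset.card_univ, Fintype.card_prod, Fintype.card_fin]
    exact le_of_eq (by ring)
  obtain ⟨Y, hY1, -, hY2⟩ := Finset.exists_subsuperset_card_eq (Finset.subset_univ B) hBc (by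
    rw [Finset.card_univ, Fintype.card_prod, Fintype.card_prod, Fintype.card_fin]
    exact hk1.trans (le_of_eq (by ring)))
  refine ⟨m, Y, fun q r => hY1 ?_, hY2, hlow⟩
  rw [hB, Finset.mem_image]
  exact ⟨(q, r), Finset.mem_univ _, rfl⟩

theorem bound (r : ℕ) (hr : 3 ≤ r) (n : ℕ) :
    ∃ (G : SimpleGraph (Fin n)) (c : Sym2 (Fin n) → ℕ), Saturated r G c ∧
      (G.edgeSet.ncard : ℝ) ≤ ((r : ℝ) + 3 * (r : ℝ) ^ ((1 : ℝ) / 3)) * n := by
  have hr0 : (0 : ℝ) ≤ r := Nat.cast_nonneg r
  by_cases h8 : r < 8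
  · obtain ⟨s, rfl⟩ := Nat.exists_eq_add_of_le' (show 2 ≤ r by omega)
    have : Nonempty (Fin s × Bool) := ⟨(⟨0, by omega⟩, true)⟩
    obtain ⟨G, c, h1, h2⟩ := main (by omega) (pairGadget s) n
    refine ⟨G, c, h1, ?_⟩
    have h3 : (G.edgeSet.ncard : ℝ) ≤ ((s * 2 : ℕ) : ℝ) * n := by
      rw [Fintype.card_prod, Fintype.card_fin, Fintype.card_bool] at h2
      exact_mod_cast h2
    refine h3.trans (mul_le_mul_of_nonneg_right ?_ (Nat.cast_nonneg n))
    have h4 : (1 : ℝ) ≤ ((s + 2 : ℕ) : ℝ) ^ ((1 : ℝ) / 3) := by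
      apply Real.one_le_rpow
      · push_cast; linarith [(Nat.cast_nonneg s : (0 : ℝ) ≤ s)]
      · norm_num
    have h5 : ((s * 2 : ℕ) : ℝ) ≤ ((s + 2 : ℕ) : ℝ) + 3 := by
      have : s * 2 ≤ (s + 2) + 3 := by omega
      exact_mod_cast this
    linarith
  · push Not at h8
    obtain ⟨N, rfl⟩ := Nat.exists_eq_add_of_le' (show 4 ≤ r by omega)
    obtain ⟨m, Y, hY, hYc, hm⟩ := exists_tri N (by omega)
    have : Nonempty (TV Y) := ⟨Sum.inl (0, 0)⟩
    obtain ⟨G, c, h1, h2⟩ := main (by omega) (triGadget hY) n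
    have hN4 : Y.card + 2 + 2 = N + 4 := by rw [hYc]
    rw [hN4] at h1
    refine ⟨G, c, h1, ?_⟩
    have hcard : Fintype.card (TV Y) = 3 * (m + 2) + N := by
      rw [Fintype.card_sum, Fintype.card_prod, Fintype.card_fin, Fintype.card_fin, Fintype.card_coe,
        hYc]
    rw [hcard] at h2
    have h3 : (G.edgeSet.ncard : ℝ) ≤ ((3 * (m + 2) + N : ℕ) : ℝ) * n := by exact_mod_cast h2
    refine h3.trans (mul_le_mul_of_nonneg_right ?_ (Nat.cast_nonneg n))
    have h4 : ((m : ℝ) + 1) ≤ ((N + 4 : ℕ) : ℝ) ^ ((1 : ℝ) / 3) := by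
      have h5 : ((m : ℝ) + 1) = (((m : ℝ) + 1) ^ 3) ^ ((1 : ℝ) / 3) := by
        rw [← Real.rpow_natCast, ← Real.rpow_mul (by positivity)]
        norm_num
      rw [h5]
      apply Real.rpow_le_rpow (by positivity) _ (by norm_num)
      have h6 : (m + 1) ^ 3 ≤ N + 4 := by omega
      exact_mod_cast h6
    push_cast at h4 ⊢
    linarith

/-- **Theorem.**  For all `r ≥ 3` and all `n` there are rainbow `K_r` saturated edge coloured graphs
on `n` vertices, and the minimum number of edges is at most `(r + 3 r^(1/3)) n`. -/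
theorem result (r : ℕ) (hr : 3 ≤ r) (n : ℕ) :
    (∃ (G : SimpleGraph (Fin n)) (c : Sym2 (Fin n) → ℕ), Saturated r G c) ∧
    (sat n r : ℝ) ≤ ((r : ℝ) + 3 * (r : ℝ) ^ ((1 : ℝ) / 3)) * n := by
  obtain ⟨G, c, h1, h2⟩ := bound r hr n
  refine ⟨⟨G, c, h1⟩, le_trans ?_ h2⟩
  have h3 : sat n r ≤ G.edgeSet.ncard := Nat.sInf_le ⟨G, c, h1, rfl⟩
  exact_mod_cast h3

end Pool.Agent.Results.MP_44a765_co.CubeRootExcess
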