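import Pool.Agent.Lib.MP_44a765_co.EV.TRC
import Pool.Agent.Lib.MP_44a765_co.EV.EXC
import Pool.Agent.Lib.MP_44a765_co.EV.TYP
import Pool.Agent.Lib.MP_44a765_co.EV.TWO
import Pool.Agent.Lib.MP_44a765_co.EV.STP
import Pool.Agent.Lib.MP_44a765_co.EV.QQQ
import Pool.Agent.Lib.MP_44a765_co.EV.LOW
import Pool.Agent.Lib.MP_44a765_co.EV.CLO
import Pool.Agent.Lib.MP_44a765_co.EV.TRS
import Pool.Agent.Lib.MP_44a765_co.EV.EXT
import Pool.Agent.Lib.MP_44a765_co.EV.JOI
import Pool.Agent.Lib.MP_44a765_co.EV.UPP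
import Pool.Agent.Lib.MP_44a765_co.EV.MON
import Pool.Agent.Lib.MP_44a765_co.EV.FIN

/-!
# MP_44a765_co: the rainbow saturation number of `K_r` is eventually an exact linear function

`sat n r` (file `Defs`) is the rainbow saturation number of `K_r` with unlimited colours; `IsCore`
(file `EV/Spec`) is the finite structure whose least order is the slope.
-/

set_option autoImplicit false

namespace Pool.Agent.Results.MP_44a765_co.EventuallyLinear

open Pool.Agent.Lib.MP44a765 Pool.Agent.Lib.MP44a765.EV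

/-- For every `r ≥ 3` let `a` be the least order of a core.  Then `sat n r ≤ a n` for all `n`, and
there are an integer `C` and an `n₀` with `sat n r = a n + C` for all `n ≥ n₀`. -/
theorem result : ∀ r : ℕ, 3 ≤ r → ∃ a : ℕ,
    IsLeast {k : ℕ | ∃ (G : SimpleGraph (Fin k)) (c : Sym2 (Fin k) → ℕ), IsCore r G c} a ∧
    (∀ n : ℕ, sat n r ≤ a * n) ∧
    ∃ (C : ℤ) (n₀ : ℕ), ∀ n : ℕ, n₀ ≤ n → (sat n r : ℤ) = a * n + C := by
  intro r hr
  have hTWO := specTWO specTRC
  have hQQQ := specQQQ (specSTP specTYP hTWO)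
  have hUPP := specUPP specEXC specTRS (specJOI specEXT)
  have hMON := specMON specTYP hTWO hQQQ specLOW specCLO specTRS hUPP
  refine ⟨ar r, ⟨?_, ?_⟩, ?_, specFIN hQQQ specLOW hUPP hMON r hr⟩
  · exact Nat.sInf_mem ⟨_, specEXC r hr⟩
  · intro k hk
    exact Nat.sInf_le hk
  · intro n
    obtain ⟨G, c, h1, h2, h3⟩ := hUPP r n hr
    exact h3

end Pool.Agent.Results.MP_44a765_co.EventuallyLinear
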