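import Pool.Agent.Lib.MP_44a765_co.XV.Values

/-!
# MP_44a765: the exact rainbow saturation numbers of `K_r` for `3 ≤ r ≤ 9`

The conjectured formula `2 (r - 2) n + C` holds for all large `n` if and only if `r = 3`.
-/

set_option autoImplicit false

namespace Pool.Agent.Results.MP_44a765_co.ExactValues

open Pool.Agent.Lib.MP44a765 Pool.Agent.Lib.MP44a765.XV

/-- **Theorem.** `sat n r` is the rainbow saturation number of `K_r`. Exact values for `3 ≤ r ≤ 9`
and the exact set of `r` for which the conjectured formula holds. -/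
theorem result :
    (∀ n : ℕ, 4 ≤ n → sat n 3 = 2 * n - 4) ∧
    (∀ n : ℕ, 15 ≤ n → sat n 4 = 3 * n - 6) ∧
    (∀ n : ℕ, 33 ≤ n → sat n 5 = 5 * n - 16) ∧
    (∀ n : ℕ, 48 ≤ n → sat n 6 = 6 * n - 21) ∧
    (∀ n : ℕ, 63 ≤ n → sat n 7 = 7 * n - 28) ∧
    (∀ n : ℕ, 80 ≤ n → sat n 8 = 8 * n - 36) ∧
    (∀ n : ℕ, 99 ≤ n → sat n 9 = 9 * n - 45) ∧
    (∀ r : ℕ, 3 ≤ r →
      ((∃ (C : ℤ) (n0 : ℕ), ∀ n : ℕ, n0 ≤ n → (sat n r : ℤ) = 2 * ((r : ℤ) - 2) * n + C) ↔
        r = 3)) := by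
  refine ⟨val3, val4, val5, fun n hn => le_antisymm (up6 n (by omega)) ?_,
    fun n hn => le_antisymm (up7 n (by omega)) ?_, fun n hn => le_antisymm (up8 n (by omega)) ?_,
    fun n hn => le_antisymm (up9 n (by omega)) ?_, conj_iff⟩
  · have := low_six 6 n (by norm_num) (by omega)
    omega
  · have := low_six 7 n (by norm_num) (by omega)
    omega
  · have := low_six 8 n (by norm_num) (by omega)
    omega
  · have := low_six 9 n (by norm_num) (by omega)
    omega

end Pool.Agent.Results.MP_44a765_co.ExactValues
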