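import Pool.Agent.Lib.MP_44a765_co.XV.Values

/-!
# MP_44a765: the slope of the rainbow saturation number of `K_r` exceeds `r` for all `r ≥ 10`, and
is `r + 1` for `10 ≤ r ≤ 15`
-/

set_option autoImplicit false

namespace Pool.Agent.Results.MP_44a765_co.SlopeAboveR

open Pool.Agent.Lib.MP44a765 Pool.Agent.Lib.MP44a765.XV

/-- **Theorem.** `sat n r` is the rainbow saturation number of `K_r`. For all `r ≥ 10` it is at
least `(r + 1) (n - (r + 1))`, and for `10 ≤ r ≤ 15` at most `(r + 1) n - (r + 1) (r + 2) / 2`. -/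
theorem result :
    (∀ r n : ℕ, 10 ≤ r → 4 * (r + 1) ≤ n → (r + 1) * (n - (r + 1)) ≤ sat n r) ∧
    (∀ r n : ℕ, 10 ≤ r → r ≤ 15 → r + 3 ≤ n →
      2 * sat n r + (r + 1) * (r + 2) ≤ 2 * (r + 1) * n) :=
  ⟨low_succ, up_succ⟩

end Pool.Agent.Results.MP_44a765_co.SlopeAboveR
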